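import Pool.Agent.H90.SRC.Targets

/-!
# WGT: from alphabets with a power of two of letters to all alphabets (MP_81fcf0_co)
-/

set_option autoImplicit false

open Finset
open Pool.Agent.H66.SLP Pool.Agent.H90.SRC Pool.Agent.H52.FT Pool.Agent.H53.SS

namespace Pool.Agent.H1.SRC

/-- the restriction of letters to a subset -/
def res {α : Type} [DecidableEq α] (Y : Finset α) (a : α) : Option {a // a ∈ Y} :=
  if h : a ∈ Y then some ⟨a, h⟩ else none

theorem res_val {α : Type} [DecidableEq α] (Y : Finset α) (a : {a // a ∈ Y}) :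
    res Y a.1 = some a := by
  unfold res
  rw [dif_pos a.2]

theorem res_eq {α : Type} [DecidableEq α] (Y : Finset α) (b : α) (a : {a // a ∈ Y})
    (h : res Y b = some a) : b = a.1 := by
  unfold res at h
  split_ifs at h with hb
  rw [Option.some.injEq] at h
  rw [← h]

theorem count_filterMap' {α β : Type} [DecidableEq α] [DecidableEq β] (f : α → Option β)
    (g : β → α) (hfg : ∀ a b, f a = some b ↔ a = g b) (w : List α) (b : β) :
    (w.filterMap f).count b = w.count (g b) := by
  induction w with
  | nil => simp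
  | cons a w ih =>
    cases ha : f a with
    | none =>
      rw [List.filterMap_cons_none ha, ih, List.count_cons_of_ne]
      intro h
      rw [(hfg a b).2 h] at ha
      exact absurd ha (by simp)
    | some c =>
      rw [List.filterMap_cons_some ha]
      by_cases hcb : c = b
      · have h2 : a = g b := (hfg a b).1 (hcb ▸ ha)
        rw [hcb, h2, List.count_cons_self, List.count_cons_self, ih]
      · have h2 : a ≠ g b := by
          intro h
          rw [(hfg a b).2 h, Option.some.injEq] at ha
          exact hcb ha.symm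
        rw [List.count_cons_of_ne hcb, List.count_cons_of_ne h2, ih]

theorem count_res {α : Type} [DecidableEq α] (Y : Finset α) (D : DecidableEq {a // a ∈ Y})
    (w : List α) (a : {a // a ∈ Y}) :
    @List.count {a // a ∈ Y} (@instBEqOfDecidableEq _ D) a (w.filterMap (res Y)) =
      w.count a.1 := by
  refine @count_filterMap' α {a // a ∈ Y} _ D (res Y) Subtype.val ?_ w a
  intro b c
  constructor
  · exact res_eq Y b c
  · intro h
    rw [h]
    exact res_val Y c

theorem filterMap_res {α : Type} [DecidableEq α] (Y : Finset α) (L : List {a // a ∈ Y}) :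
    (L.map Subtype.val).filterMap (res Y) = L := by
  induction L with
  | nil => simp
  | cons a L ih =>
    rw [List.map_cons, List.filterMap_cons_some (res_val Y a), ih]

theorem pf_WGT (hFTY : T_FTY) : Pool.Agent.H53.SS.T_WGT := by
  intro ε hε
  obtain ⟨C, C', hC, hC', hF⟩ := hFTY (min ε 1) (lt_min hε one_pos) (min_le_right _ _)
  refine ⟨C + C' + 1, by linarith, ?_⟩
  intro α _ Y p w θ hp hθ hY hc
  have hθ0 : 0 < θ := by linarith
  have h1 : θ ^ (1 + min ε 1) ≤ θ ^ (1 + ε) :=
    Real.rpow_le_rpow_of_exponent_le hθ (by linarith [min_le_left ε 1])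
  have h2 : 1 ≤ θ ^ (1 + min ε 1) := by
    refine Real.one_le_rpow hθ ?_
    have := lt_min hε one_pos
    linarith
  have h3 : 1 ≤ θ ^ ε := Real.one_le_rpow hθ hε.le
  have hx : 1 ≤ C * θ ^ (1 + min ε 1) := one_le_mul_of_one_le_of_one_le hC h2
  obtain ⟨m, hm1, hm2⟩ := exists_nat_pow_near hx (one_lt_two : (1 : ℝ) < 2)
  have hm3 : C * θ ^ (1 + min ε 1) / 2 ≤ (2 : ℝ) ^ m := by
    rw [pow_succ] at hm2
    linarith
  have hcard : 2 ^ m ≤ Y.card := by
    have h4 : (2 : ℝ) ^ m ≤ Y.card := by
      calc (2 : ℝ) ^ m ≤ C * θ ^ (1 + min ε 1) := hm1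
        _ ≤ (C + C' + 1) * θ ^ (1 + ε) := by
            apply mul_le_mul (by linarith) h1 (by linarith) (by linarith)
        _ ≤ Y.card := hY
    exact_mod_cast h4
  obtain ⟨Y', hY', hY'c⟩ := Finset.exists_subset_card_eq hcard
  obtain ⟨L, hLn, hLs, hLc⟩ := hF {a // a ∈ Y'} (w.filterMap (res Y')) (fun a => p a.1) θ m
    (fun a => hp a.1 (hY' a.2)) hθ (by rw [Fintype.card_coe, hY'c]) hm3 hm1 (by
      intro a
      rw [count_res]
      exact hc a.1 (hY' a.2))
  refine ⟨L.map Subtype.val, ⟨?_, ?_⟩, ?_, ?_⟩
  · exact hLn.map Subtype.val_injective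
  · intro z hz
    obtain ⟨a, -, rfl⟩ := List.mem_map.1 hz
    exact hY' a.2
  · intro h
    apply hLs
    have := h.filterMap (res Y')
    rwa [filterMap_res] at this
  · have h5 : cost p (L.map Subtype.val) = (L.map fun a => p a.1).sum := by
      unfold cost
      rw [List.map_map]
      rfl
    rw [h5]
    have h6 : C' ≤ (C + C' + 1) * θ ^ ε := by
      calc C' ≤ (C + C' + 1) * 1 := by linarith
        _ ≤ (C + C' + 1) * θ ^ ε := mul_le_mul_of_nonneg_left h3 (by linarith)
    linarith

end Pool.Agent.H1.SRC
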